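import Mathlib
import Pool.Agent.R529.SM.V8
import Pool.Agent.R529.SM.V9

set_option autoImplicit false

/-!
# All windows of all lengths, and the Oppermann intervals, in sieved random models of the primes

The question is whether each of the intervals `[n² - n, n²]`, `[n², n² + n]` contains `~ n / (2 log n)`
primes.  We consider EVERY sequential random model of the primes: the integers are decided one after
the other, only integers coprime to a fixed `Q` can be chosen, and the conditional probability of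
choosing `n + 1` (coprime to `Q`) given the past is asymptotic to `(Q / φ(Q)) / log n`; no independence
is assumed (for `Q = 1` Cramér's model and the Hawkins random sieve are examples).  Let `N(x,y)` be the
number of members in `(x, x + y]` and `C(x,y)` the sum of the conditional probabilities over it.  Almost
surely, for every `s > 2`, `|N(x,y) - C(x,y)| ≤ √y (√(2 (1 - log y / log x)) + o(1))` uniformly for all
real `y` with `(log x)^s ≤ y ≤ x` (in particular in all the sub-windows of the Oppermann intervals);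
this is sharp at each scale `y = x^θ`, `0 < θ < 1`; `N(x,y) ~ y / log x` uniformly; and each of the two
Oppermann intervals contains `~ n / (2 log n)` members, with an error of at most `(1 + o(1)) √n`.
-/

open MeasureTheory Filter
open scoped Topology

namespace Pool.Agent.Results.MP_a8fbd7_nt.AllWindowsSievedModels

/-- the number of members `m` of `S` with `x < m ≤ x + y` -/
noncomputable def count (S : Set ℕ) (x y : ℝ) : ℕ :=
  Set.ncard {m : ℕ | m ∈ S ∧ x < m ∧ (m : ℝ) ≤ x + y}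

/-- the integers `m ≥ 0` with `x < m ≤ x + y` -/
noncomputable def between (x y : ℝ) : Finset ℕ :=
  (Finset.range (⌊x + y⌋₊ + 1)).filter (fun m => x < (m : ℝ))

/-- the sum over the integers `m` with `x < m ≤ x + y` of the conditional probabilities of `A m`
given `ℱ (m - 1)` -/
noncomputable def condSum {Ω : Type} {mΩ : MeasurableSpace Ω} (μ : Measure Ω) (ℱ : Filtration ℕ mΩ)
    (A : ℕ → Set Ω) (x y : ℝ) (ω : Ω) : ℝ :=
  ∑ m ∈ between x y, (μ[(A m).indicator (fun _ => (1 : ℝ)) | ℱ (m - 1)]) ω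

/-- the ratio `R(x,y) = #(S ∩ (x, x + y]) / (y / log x)` -/
noncomputable def R (S : Set ℕ) (x y : ℝ) : ℝ := count S x y / (y / Real.log x)

/-- the number of members of `S` in `[n² - n, n²]` -/
noncomputable def left (S : Set ℕ) (n : ℕ) : ℕ := Set.ncard {m : ℕ | m ∈ S ∧ n ^ 2 ≤ m + n ∧ m ≤ n ^ 2}

/-- the number of members of `S` in `[n², n² + n]` -/
noncomputable def right (S : Set ℕ) (n : ℕ) : ℕ := Set.ncard {m : ℕ | m ∈ S ∧ n ^ 2 ≤ m ∧ m ≤ n ^ 2 + n}

/-- the sum of the conditional probabilities over `[n² - n, n²]` -/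
noncomputable def condLeft {Ω : Type} {mΩ : MeasurableSpace Ω} (μ : Measure Ω) (ℱ : Filtration ℕ mΩ)
    (A : ℕ → Set Ω) (n : ℕ) (ω : Ω) : ℝ :=
  ∑ m ∈ Finset.Icc (n ^ 2 - n) (n ^ 2), (μ[(A m).indicator (fun _ => (1 : ℝ)) | ℱ (m - 1)]) ω

/-- the sum of the conditional probabilities over `[n², n² + n]` -/
noncomputable def condRight {Ω : Type} {mΩ : MeasurableSpace Ω} (μ : Measure Ω) (ℱ : Filtration ℕ mΩ)
    (A : ℕ → Set Ω) (n : ℕ) (ω : Ω) : ℝ :=
  ∑ m ∈ Finset.Icc (n ^ 2) (n ^ 2 + n), (μ[(A m).indicator (fun _ => (1 : ℝ)) | ℱ (m - 1)]) ω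

open Pool.Agent.R528.RM Pool.Agent.R291.RMW Pool.Agent.R529.SM

lemma between_eq {x h : ℝ} (hx : 0 < x) : between x h = Finset.Ioc ⌊x⌋₊ ⌊x + h⌋₊ := by
  ext m
  unfold between
  rw [Finset.mem_filter, Finset.mem_range, Finset.mem_Ioc, Nat.floor_lt hx.le]
  constructor
  · rintro ⟨h1, h2⟩
    exact ⟨h2, by omega⟩
  · rintro ⟨h1, h2⟩
    exact ⟨by omega, h1⟩

lemma count_eq {Ω : Type} {A : ℕ → Set Ω} {ω : Ω} {x h : ℝ} (hx : 0 < x) (hh : 0 ≤ h) :
    (count {k | ω ∈ A k} x h : ℝ) = Ncl A (Finset.Ioc ⌊x⌋₊ ⌊x + h⌋₊) ω := by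
  rw [Ncl_eq, ← between_eq hx]
  unfold count between
  congr 2
  ext m
  simp only [Set.mem_ofPred_eq, Finset.mem_filter, Finset.mem_range, Nat.lt_add_one_iff,
    Nat.le_floor_iff (show 0 ≤ x + h by linarith)]
  tauto

lemma condSum_eq {Ω : Type} {mΩ : MeasurableSpace Ω} {μ : Measure Ω} {ℱ : Filtration ℕ mΩ}
    {A : ℕ → Set Ω} {ω : Ω} {x h : ℝ} (hx : 0 < x) :
    condSum μ ℱ A x h ω = VS μ ℱ A (Finset.Ioc ⌊x⌋₊ ⌊x + h⌋₊) ω := by
  unfold condSum VS
  rw [between_eq hx]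
  refine Finset.sum_congr rfl fun m hm => ?_
  have := (Finset.mem_Ioc.1 hm).1
  unfold dens
  rw [show m - 1 + 1 = m by omega]

lemma diff_eq {Ω : Type} {mΩ : MeasurableSpace Ω} {μ : Measure Ω} [IsProbabilityMeasure μ] {ℱ : Filtration ℕ mΩ}
    {A : ℕ → Set Ω} {ω : Ω} {x h : ℝ} (hx : 0 < x) (hh : 0 ≤ h) :
    (count {k | ω ∈ A k} x h : ℝ) - condSum μ ℱ A x h ω = CS μ ℱ A (Finset.Ioc ⌊x⌋₊ ⌊x + h⌋₊) ω := by
  rw [count_eq hx hh, condSum_eq hx, CS_eq]

/-- the compensator is uniformly close to the sum of the profile -/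
lemma VS_vR_unif {Ω : Type} {mΩ : MeasurableSpace Ω} {μ : Measure Ω} [IsProbabilityMeasure μ] {ℱ : Filtration ℕ mΩ}
    {A : ℕ → Set Ω} {ω : Ω} {W : ℕ}
    (hd : ∀ ε : ℝ, 0 < ε → ∀ᶠ n : ℕ in atTop, |dens μ ℱ A n ω - rhoW W (n + 1)| ≤ ε * rhoW W (n + 1))
    {ε : ℝ} (hε : 0 < ε) :
    ∀ᶠ x : ℝ in atTop, ∀ b : ℕ, |VS μ ℱ A (Finset.Ioc ⌊x⌋₊ b) ω - vR W (Finset.Ioc ⌊x⌋₊ b)| ≤
      ε * vR W (Finset.Ioc ⌊x⌋₊ b) := by
  obtain ⟨n₀, hn₀⟩ := eventually_atTop.1 (hd ε hε)
  filter_upwards [(tendsto_nat_floor_atTop (α := ℝ)).eventually_ge_atTop n₀] with x g1 b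
  unfold VS vR
  rw [← Finset.sum_sub_distrib, Finset.mul_sum]
  refine (Finset.abs_sum_le_sum_abs _ _).trans (Finset.sum_le_sum fun m hm => ?_)
  have g5 := (Finset.mem_Ioc.1 hm).1
  have g6 := hn₀ (m - 1) (by omega)
  rwa [show m - 1 + 1 = m by omega] at g6

lemma left_eq (S : Set ℕ) {n : ℕ} (hn : 2 ≤ n) : left S n = count S ((n ^ 2 - n - 1 : ℕ) : ℝ) ((n + 1 : ℕ) : ℝ) := by
  unfold left count
  congr 1
  ext m
  have h1 : n + 1 ≤ n ^ 2 := by nlinarith
  simp only [Set.mem_ofPred_eq]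
  rw [← Nat.cast_add, Nat.cast_lt, Nat.cast_le]
  constructor
  · rintro ⟨h2, h3, h4⟩
    exact ⟨h2, by omega, by omega⟩
  · rintro ⟨h2, h3, h4⟩
    exact ⟨h2, by omega, by omega⟩

lemma right_eq (S : Set ℕ) {n : ℕ} (hn : 2 ≤ n) : right S n = count S ((n ^ 2 - 1 : ℕ) : ℝ) ((n + 1 : ℕ) : ℝ) := by
  unfold right count
  congr 1
  ext m
  have h1 : n + 1 ≤ n ^ 2 := by nlinarith
  simp only [Set.mem_ofPred_eq]
  rw [← Nat.cast_add, Nat.cast_lt, Nat.cast_le]
  constructor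
  · rintro ⟨h2, h3, h4⟩
    exact ⟨h2, by omega, by omega⟩
  · rintro ⟨h2, h3, h4⟩
    exact ⟨h2, by omega, by omega⟩

lemma between_nat {a l : ℕ} (ha : 0 < a) : between (a : ℝ) (l : ℝ) = Finset.Icc (a + 1) (a + l) := by
  rw [between_eq (by exact_mod_cast ha), Nat.floor_natCast, ← Nat.cast_add, Nat.floor_natCast]
  ext m
  rw [Finset.mem_Ioc, Finset.mem_Icc]
  omega

lemma condLeft_eq {Ω : Type} {mΩ : MeasurableSpace Ω} (μ : Measure Ω) (ℱ : Filtration ℕ mΩ)
    (A : ℕ → Set Ω) {n : ℕ} (hn : 2 ≤ n) (ω : Ω) :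
    condLeft μ ℱ A n ω = condSum μ ℱ A ((n ^ 2 - n - 1 : ℕ) : ℝ) ((n + 1 : ℕ) : ℝ) ω := by
  have h1 : n + 2 ≤ n ^ 2 := by nlinarith
  unfold condLeft condSum
  rw [between_nat (by omega)]
  congr 1
  ext m
  rw [Finset.mem_Icc, Finset.mem_Icc]
  omega

lemma condRight_eq {Ω : Type} {mΩ : MeasurableSpace Ω} (μ : Measure Ω) (ℱ : Filtration ℕ mΩ)
    (A : ℕ → Set Ω) {n : ℕ} (hn : 2 ≤ n) (ω : Ω) :
    condRight μ ℱ A n ω = condSum μ ℱ A ((n ^ 2 - 1 : ℕ) : ℝ) ((n + 1 : ℕ) : ℝ) ω := by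
  have h1 : n + 2 ≤ n ^ 2 := by nlinarith
  unfold condRight condSum
  rw [between_nat (by omega)]
  congr 1
  ext m
  rw [Finset.mem_Icc, Finset.mem_Icc]
  omega

/-- passage to windows of length `n + 1` near `n²` -/
lemma square_windows {N C : ℝ → ℝ → ℝ} {a : ℕ → ℕ} (ha1 : ∀ᶠ n : ℕ in atTop, 1 / 2 * (n : ℝ) ^ 2 ≤ a n)
    (ha2 : ∀ᶠ n : ℕ in atTop, (a n : ℝ) ≤ 1 * (n : ℝ) ^ 2)
    (h1 : ∀ s : ℝ, 2 < s → ∀ ε : ℝ, 0 < ε → ∀ᶠ x : ℝ in atTop, ∀ y : ℝ, Real.log x ^ s ≤ y → y ≤ x →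
      |N x y - C x y| ≤ √y * (√(2 * (1 - Real.log y / Real.log x)) + ε))
    (h2 : ∀ s : ℝ, 2 < s → ∀ ε : ℝ, 0 < ε → ∀ᶠ x : ℝ in atTop, ∀ y : ℝ, Real.log x ^ s ≤ y → y ≤ x →
      |N x y / (y / Real.log x) - 1| ≤ ε) :
    (∀ ε : ℝ, 0 < ε → ∀ᶠ n : ℕ in atTop, |N (a n) ((n + 1 : ℕ) : ℝ) - C (a n) ((n + 1 : ℕ) : ℝ)| ≤ (1 + ε) * √(n : ℝ)) ∧
    Tendsto (fun n : ℕ => N (a n) ((n + 1 : ℕ) : ℝ) / ((n : ℝ) / (2 * Real.log n))) atTop (𝓝 1) := by
  have hatop : Tendsto (fun n : ℕ => (a n : ℝ)) atTop atTop := by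
    refine tendsto_atTop_mono' _ ha1 ?_
    exact ((tendsto_pow_atTop (by norm_num)).comp tendsto_natCast_atTop_atTop).const_mul_atTop (by norm_num)
  have hloga : Tendsto (fun n : ℕ => Real.log (a n) / Real.log n) atTop (𝓝 2) := by
    have := log_squeeze (a := a) (κ := 2) (C₁ := 1 / 2) (C₂ := 1) (by norm_num) one_pos (by
      filter_upwards [ha1, ha2] with n g1 g2
      exact ⟨g1, g2⟩)
    exact_mod_cast this
  have hlog1 : Tendsto (fun n : ℕ => Real.log ((n + 1 : ℕ) : ℝ) / Real.log n) atTop (𝓝 1) := log_succ_ratio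
  have hrange : ∀ᶠ n : ℕ in atTop, Real.log (a n) ^ (3 : ℝ) ≤ ((n + 1 : ℕ) : ℝ) ∧ ((n + 1 : ℕ) : ℝ) ≤ a n := by
    filter_upwards [gs_small (show (0 : ℝ) < 3 by norm_num), ha1, ha2, eventually_ge_atTop 4] with n g1 g2 g3 g4
    have hn4 : (4 : ℝ) ≤ n := by exact_mod_cast g4
    have ha0 : (1 : ℝ) ≤ a n := by nlinarith
    have hl : Real.log (a n) ≤ 2 * Real.log n := by
      have := Real.log_le_log (by linarith) g3
      rw [one_mul, Real.log_pow] at this
      exact_mod_cast this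
    constructor
    · have h3 : Real.log (a n) ^ (3 : ℝ) ≤ (2 * Real.log n) ^ (3 : ℝ) :=
        Real.rpow_le_rpow (Real.log_nonneg ha0) hl (by norm_num)
      have h4 : (2 * Real.log (n : ℝ)) ^ (3 : ℝ) ≤ gs 3 n := by
        unfold gs
        push_cast
        have := Nat.le_ceil ((2 * Real.log (n : ℝ)) ^ (3 : ℝ))
        linarith
      have h5 : (gs 3 n : ℝ) ≤ n := by exact_mod_cast g1
      push_cast
      linarith
    · push_cast
      nlinarith
  constructor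
  · intro ε hε
    set η : ℝ := min (ε / 8) 1 with hη
    have hη0 : 0 < η := lt_min (by positivity) one_pos
    have hη1 : η ≤ 1 := min_le_right _ _
    have hηε : η ≤ ε / 8 := min_le_left _ _
    have hlim : Tendsto (fun n : ℕ => √(2 * (1 - Real.log ((n + 1 : ℕ) : ℝ) / Real.log (a n)))) atTop (𝓝 1) := by
      have h3 := hlog1.div hloga (by norm_num)
      have h4 := ((h3.const_sub 1).const_mul 2).sqrt
      rw [show (2 : ℝ) * (1 - 1 / 2) = 1 by norm_num, Real.sqrt_one] at h4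
      refine h4.congr' ?_
      filter_upwards [tendsto_log.eventually_gt_atTop 0] with n hn
      simp only [Pi.div_apply]
      rw [div_div_div_cancel_right₀ hn.ne']
    filter_upwards [hatop.eventually (h1 3 (by norm_num) η hη0), hrange, hlim.eventually (eventually_lt_nhds (show (1 : ℝ) < 1 + η by linarith)),
      tendsto_natCast_atTop_atTop.eventually_ge_atTop (1 / η)] with n g1 g2 g3 g4
    refine (g1 _ g2.1 g2.2).trans ?_
    have h5 : √((n + 1 : ℕ) : ℝ) ≤ (1 + η) * √(n : ℝ) := by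
      rw [Real.sqrt_le_left (by positivity), mul_pow, Real.sq_sqrt (Nat.cast_nonneg n)]
      rw [div_le_iff₀ hη0] at g4
      push_cast
      nlinarith [sq_nonneg η, Nat.cast_nonneg (α := ℝ) n]
    calc √((n + 1 : ℕ) : ℝ) * (√(2 * (1 - Real.log ((n + 1 : ℕ) : ℝ) / Real.log (a n))) + η) ≤
        (1 + η) * √(n : ℝ) * (1 + η + η) := mul_le_mul h5 (by linarith) (by positivity) (by positivity)
      _ = ((1 + η) * (1 + 2 * η)) * √(n : ℝ) := by ring
      _ ≤ (1 + ε) * √(n : ℝ) := by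
        apply mul_le_mul_of_nonneg_right _ (Real.sqrt_nonneg _)
        nlinarith
  · have hR : Tendsto (fun n : ℕ => N (a n) ((n + 1 : ℕ) : ℝ) / (((n + 1 : ℕ) : ℝ) / Real.log (a n))) atTop (𝓝 1) := by
      rw [Metric.tendsto_nhds]
      intro ε hε
      filter_upwards [hatop.eventually (h2 3 (by norm_num) (ε / 2) (by positivity)), hrange] with n g1 g2
      rw [Real.dist_eq]
      have := g1 _ g2.1 g2.2
      linarith
    have hn1 : Tendsto (fun n : ℕ => ((n + 1 : ℕ) : ℝ) / n) atTop (𝓝 1) := by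
      have h3 : Tendsto (fun n : ℕ => 1 + 1 / (n : ℝ)) atTop (𝓝 (1 + 0)) :=
        tendsto_const_nhds.add tendsto_one_div_atTop_nhds_zero_nat
      rw [add_zero] at h3
      refine h3.congr' ?_
      filter_upwards [eventually_gt_atTop 0] with n hn
      have : (n : ℝ) ≠ 0 := by positivity
      push_cast
      field_simp
    have h3 := hR.mul (hn1.mul ((tendsto_const_nhds (x := (2 : ℝ))).div hloga (by norm_num)))
    rw [div_self (by norm_num), mul_one, mul_one] at h3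
    refine h3.congr' ?_
    filter_upwards [tendsto_log.eventually_gt_atTop 0, eventually_gt_atTop 0, (Real.tendsto_log_atTop.comp hatop).eventually_gt_atTop 0] with n g1 g2 g3
    simp only [Function.comp] at g3
    have h4 : (n : ℝ) ≠ 0 := by positivity
    have h5 : ((n + 1 : ℕ) : ℝ) ≠ 0 := by positivity
    simp only [Pi.div_apply]
    field_simp

end Pool.Agent.Results.MP_a8fbd7_nt.AllWindowsSievedModels

open Pool.Agent.Results.MP_a8fbd7_nt.AllWindowsSievedModels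

set_option maxHeartbeats 2000000 in
/-- Let `A n` be the event that `n` belongs to a random set adapted to a filtration `ℱ`, let
`Q ≥ 1`, let no integer which is not coprime to `Q` be chosen, and let the conditional probability of
`A (n + 1)` given `ℱ n`, times `log n`, tend to `Q / φ(Q)` along the `n` with `n + 1` coprime to `Q`,
almost surely.
* Almost surely, for every real `s > 2` and `ε > 0`, for all large real `x` and all real `y` with
  `(log x)^s ≤ y ≤ x`, the number of members in `(x, x + y]` differs from the sum of the conditional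
  probabilities by at most `√y (√(2 (1 - log y / log x)) + ε)`.
* For every real `θ` with `0 < θ < 1`, almost surely, for every `ε > 0` there are arbitrarily large `x`
  such that the number of members in `(x, x + x^θ]` exceeds the sum of the conditional probabilities
  by at least `√(x^θ) (√(2 (1 - θ)) - ε)`.
* Almost surely, for every real `s > 2` and `ε > 0`, `|R(x,y) - 1| ≤ ε` for all large real `x` and all
  real `y` with `(log x)^s ≤ y ≤ x`.
* Almost surely, each of the intervals `[n² - n, n²]` and `[n², n² + n]` contains `~ n / (2 log n)`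
  members, and for every `ε > 0` and all large `n` the numbers of members differ from the sums of the
  conditional probabilities by at most `(1 + ε) √n`. -/
theorem Pool.Agent.Results.MP_a8fbd7_nt.AllWindowsSievedModels.result
    {Ω : Type} [mΩ : MeasurableSpace Ω] (μ : Measure Ω) [IsProbabilityMeasure μ]
    (ℱ : Filtration ℕ mΩ) (A : ℕ → Set Ω) (hA : ∀ n, MeasurableSet[ℱ n] (A n))
    (Q : ℕ) (hQ : 0 < Q) (hcop : ∀ n, ¬ Nat.Coprime n Q → A n = ∅)
    (hd : ∀ᵐ ω ∂μ, Tendsto (fun n : ℕ =>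
      (μ[(A (n + 1)).indicator (fun _ => (1 : ℝ)) | ℱ n]) ω * Real.log n)
      (atTop ⊓ 𝓟 {n : ℕ | Nat.Coprime (n + 1) Q}) (𝓝 ((Q : ℝ) / Nat.totient Q))) :
    (∀ᵐ ω ∂μ, ∀ s : ℝ, 2 < s → ∀ ε : ℝ, 0 < ε → ∀ᶠ x : ℝ in atTop, ∀ y : ℝ,
        Real.log x ^ s ≤ y → y ≤ x →
        |(count {k | ω ∈ A k} x y : ℝ) - condSum μ ℱ A x y ω| ≤
          √y * (√(2 * (1 - Real.log y / Real.log x)) + ε)) ∧
    (∀ θ : ℝ, 0 < θ → θ < 1 → ∀ᵐ ω ∂μ, ∀ ε : ℝ, 0 < ε → ∃ᶠ x : ℝ in atTop,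
        condSum μ ℱ A x (x ^ θ) ω + √(x ^ θ) * (√(2 * (1 - θ)) - ε) ≤ count {k | ω ∈ A k} x (x ^ θ)) ∧
    (∀ᵐ ω ∂μ, ∀ s : ℝ, 2 < s → ∀ ε : ℝ, 0 < ε → ∀ᶠ x : ℝ in atTop, ∀ y : ℝ,
        Real.log x ^ s ≤ y → y ≤ x → |R {k | ω ∈ A k} x y - 1| ≤ ε) ∧
    (∀ᵐ ω ∂μ, Tendsto (fun n : ℕ => (left {k | ω ∈ A k} n : ℝ) / ((n : ℝ) / (2 * Real.log n))) atTop (𝓝 1) ∧
        Tendsto (fun n : ℕ => (right {k | ω ∈ A k} n : ℝ) / ((n : ℝ) / (2 * Real.log n))) atTop (𝓝 1) ∧
        ∀ ε : ℝ, 0 < ε → ∀ᶠ n : ℕ in atTop,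
          |(left {k | ω ∈ A k} n : ℝ) - condLeft μ ℱ A n ω| ≤ (1 + ε) * √(n : ℝ) ∧
          |(right {k | ω ∈ A k} n : ℝ) - condRight μ ℱ A n ω| ≤ (1 + ε) * √(n : ℝ)) := by
  have hprof := Pool.Agent.R528.RM.dens_profile (μ := μ) (ℱ := ℱ) hA Q hQ hcop hd
  have hU := Pool.Agent.R529.SM.all_scales (μ := μ) (ℱ := ℱ) hA hQ hprof
  have hP1 : ∀ᵐ ω ∂μ, ∀ s : ℝ, 2 < s → ∀ ε : ℝ, 0 < ε → ∀ᶠ x : ℝ in atTop, ∀ y : ℝ,
        Real.log x ^ s ≤ y → y ≤ x →
        |(count {k | ω ∈ A k} x y : ℝ) - condSum μ ℱ A x y ω| ≤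
          √y * (√(2 * (1 - Real.log y / Real.log x)) + ε) := by
    filter_upwards [hU] with ω hω s hs ε hε
    filter_upwards [hω s hs ε hε, eventually_gt_atTop (1 : ℝ)] with x g1 g2 y h1 h2
    have hl := Real.log_pos g2
    have hh : 0 ≤ y := le_trans (by positivity) h1
    rw [diff_eq (by linarith) hh]
    exact g1 y h1 h2
  have hP3 : ∀ᵐ ω ∂μ, ∀ s : ℝ, 2 < s → ∀ ε : ℝ, 0 < ε → ∀ᶠ x : ℝ in atTop, ∀ y : ℝ,
        Real.log x ^ s ≤ y → y ≤ x → |R {k | ω ∈ A k} x y - 1| ≤ ε := by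
    filter_upwards [hU, hprof] with ω h1 h2 s hs ε hε
    set η : ℝ := min (ε / 4) 1 with hη
    have hη0 : 0 < η := lt_min (by positivity) one_pos
    have hη1 : η ≤ 1 := min_le_right _ _
    have hηε : η ≤ ε / 4 := min_le_left _ _
    have hbig : Tendsto (fun x : ℝ => Real.log x ^ (s / 2 - 1)) atTop atTop :=
      (tendsto_rpow_atTop (by linarith)).comp Real.tendsto_log_atTop
    filter_upwards [h1 s hs 1 one_pos, VS_vR_unif h2 hη0, Pool.Agent.R529.SM.vR_unif hQ (show 0 < s by linarith) hη0,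
      eventually_gt_atTop (1 : ℝ), Real.tendsto_log_atTop.eventually_ge_atTop 1, hbig.eventually_ge_atTop (3 / η)]
      with x g1 g2 g3 g4 g5 g6 y hy1 hy2
    have hL0 : 0 < Real.log x := by linarith
    have hy0 : 1 ≤ y := le_trans (Real.one_le_rpow g5 (by linarith)) hy1
    have k1 := g1 y hy1 hy2
    have k2 := g2 ⌊x + y⌋₊
    have k3 := g3 y hy1 hy2
    unfold R
    rw [count_eq (by linarith) (by linarith)]
    set I := Finset.Ioc ⌊x⌋₊ ⌊x + y⌋₊ with hI
    have hCS := Pool.Agent.R528.RM.CS_eq (μ := μ) (ℱ := ℱ) (A := A) I ω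
    set D := y / Real.log x with hD
    have hD0 : 0 < D := by positivity
    -- the fluctuation
    have k4 : √y * (√(2 * (1 - Real.log y / Real.log x)) + 1) ≤ η * D := by
      have h3 : √(2 * (1 - Real.log y / Real.log x)) ≤ 2 := by
        rw [Real.sqrt_le_left (by norm_num)]
        have : 0 ≤ Real.log y / Real.log x := div_nonneg (Real.log_nonneg hy0) hL0.le
        linarith
      have h4 : √y * (√(2 * (1 - Real.log y / Real.log x)) + 1) ≤ √y * 3 :=
        mul_le_mul_of_nonneg_left (by linarith) (Real.sqrt_nonneg _)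
      refine h4.trans ?_
      have h5 : Real.log x ^ (s / 2) ≤ √y := by
        apply Real.le_sqrt_of_sq_le
        rw [← Real.rpow_natCast, ← Real.rpow_mul hL0.le]
        refine le_trans (le_of_eq ?_) hy1
        congr 1
        push_cast
        ring
      have h6 : Real.log x ^ (s / 2 - 1) * Real.log x = Real.log x ^ (s / 2) := by
        rw [← Real.rpow_add_one hL0.ne']
        congr 1
        ring
      have h7 : 3 / η * Real.log x ≤ √y := by
        refine le_trans ?_ h5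
        rw [← h6]
        exact mul_le_mul_of_nonneg_right g6 hL0.le
      have h8 : 3 * Real.log x ≤ η * √y := by
        have := mul_le_mul_of_nonneg_left h7 hη0.le
        rw [← mul_assoc, mul_div_cancel₀ _ hη0.ne'] at this
        exact this
      rw [hD, mul_div_assoc', le_div_iff₀ hL0]
      have h9 : √y * √y = y := Real.mul_self_sqrt (by linarith)
      nlinarith [Real.sqrt_nonneg y]
    have a1 := abs_le.1 (k1.trans k4)
    rw [hCS] at a1
    have a2 := abs_le.1 k2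
    have a3 := abs_le.1 k3
    have hvR : Pool.Agent.R291.RMW.vR Q I ≤ 2 * D := by nlinarith [a3.2]
    have hvη : η * Pool.Agent.R291.RMW.vR Q I ≤ η * (2 * D) := mul_le_mul_of_nonneg_left hvR hη0.le
    have hεD : 4 * (η * D) ≤ ε * D := by nlinarith
    rw [div_sub_one hD0.ne', abs_div, abs_of_pos hD0, div_le_iff₀ hD0, abs_le]
    constructor
    · linarith [a1.1, a2.1, a3.1]
    · linarith [a1.2, a2.2, a3.2]
  refine ⟨hP1, ?_, hP3, ?_⟩
  · intro θ h0 h1
    filter_upwards [Pool.Agent.R529.SM.low_pow (μ := μ) (ℱ := ℱ) hA hQ hprof h0 h1] with ω hω ε hε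
    have h1 := (hω ε hε).and_eventually (eventually_gt_atTop 1)
    refine (tendsto_natCast_atTop_atTop (R := ℝ)).frequently (h1.mono ?_)
    rintro n ⟨g1, g2⟩
    have hn : (1 : ℝ) < n := by exact_mod_cast g2
    have e := diff_eq (μ := μ) (ℱ := ℱ) (A := A) (ω := ω) (x := (n : ℝ)) (h := (n : ℝ) ^ θ) (by linarith) (by positivity)
    rw [Nat.floor_natCast] at e
    linarith
  · have e1 : ∀ᶠ n : ℕ in atTop, 1 / 2 * (n : ℝ) ^ 2 ≤ ((n ^ 2 - n - 1 : ℕ) : ℝ) := by
      filter_upwards [eventually_ge_atTop 4] with n hn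
      have h1 : n ^ 2 ≤ 2 * (n ^ 2 - n - 1) := by
        have : 4 * n ≤ n ^ 2 := by nlinarith
        omega
      have h2 : (n : ℝ) ^ 2 ≤ 2 * ((n ^ 2 - n - 1 : ℕ) : ℝ) := by exact_mod_cast h1
      linarith
    have e2 : ∀ᶠ n : ℕ in atTop, ((n ^ 2 - n - 1 : ℕ) : ℝ) ≤ 1 * (n : ℝ) ^ 2 :=
      Eventually.of_forall fun n => by
        have h1 : n ^ 2 - n - 1 ≤ n ^ 2 := by omega
        rw [one_mul]
        exact_mod_cast h1
    have e3 : ∀ᶠ n : ℕ in atTop, 1 / 2 * (n : ℝ) ^ 2 ≤ ((n ^ 2 - 1 : ℕ) : ℝ) := by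
      filter_upwards [e1] with n hn
      refine hn.trans ?_
      exact_mod_cast (by omega : n ^ 2 - n - 1 ≤ n ^ 2 - 1)
    have e4 : ∀ᶠ n : ℕ in atTop, ((n ^ 2 - 1 : ℕ) : ℝ) ≤ 1 * (n : ℝ) ^ 2 :=
      Eventually.of_forall fun n => by
        have h1 : n ^ 2 - 1 ≤ n ^ 2 := by omega
        rw [one_mul]
        exact_mod_cast h1
    filter_upwards [hP1, hP3] with ω h1 h3
    obtain ⟨l1, l2⟩ := square_windows (N := fun x y => (count {k | ω ∈ A k} x y : ℝ)) (C := fun x y => condSum μ ℱ A x y ω)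
      e1 e2 h1 h3
    obtain ⟨r1, r2⟩ := square_windows (N := fun x y => (count {k | ω ∈ A k} x y : ℝ)) (C := fun x y => condSum μ ℱ A x y ω)
      e3 e4 h1 h3
    refine ⟨l2.congr' ?_, r2.congr' ?_, fun ε hε => ?_⟩
    · filter_upwards [eventually_ge_atTop 2] with n hn
      rw [left_eq _ hn]
    · filter_upwards [eventually_ge_atTop 2] with n hn
      rw [right_eq _ hn]
    · filter_upwards [l1 ε hε, r1 ε hε, eventually_ge_atTop 2] with n g1 g2 hn
      rw [left_eq _ hn, right_eq _ hn, condLeft_eq μ ℱ A hn, condRight_eq μ ℱ A hn]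
      exact ⟨g1, g2⟩
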