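import Mathlib
import Pool.Agent.R463.NarLin

set_option autoImplicit false

/-!
# Narrow progressions in arbitrary sets of primes in the Oppermann intervals

Almost all elements of every set of primes or almost primes in an Oppermann interval lie in narrow
arithmetic progressions inside the set and the interval.
-/

namespace Pool.Agent.Results.MP_a8fbd7_nt.NarrowProgressions

open Finset Filter

/-- The integers all prime factors of which are larger than `m ^ (1 / r)`. -/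
def RoughAt (r : ℕ) : Set ℕ := {m | ∀ p : ℕ, p.Prime → p ∣ m → (m : ℝ) ^ (1 / (r : ℝ)) < (p : ℝ)}

/-- `m` is a term of an `l`-term arithmetic progression with difference at most `D`, all terms of which
are elements of `A` in the interval `(a, b]`. -/
def InProgression (A : Set ℕ) (l : ℕ) (D : ℝ) (a b m : ℕ) : Prop :=
  ∃ u d : ℕ, 1 ≤ d ∧ (d : ℝ) ≤ D ∧ (∀ i < l, u + i * d ∈ A ∧ a < u + i * d ∧ u + i * d ≤ b) ∧
    ∃ i < l, m = u + i * d

lemma InProgression.mono {A : Set ℕ} {l : ℕ} {D D' : ℝ} {a b m : ℕ} (h : InProgression A l D a b m)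
    (hD : D ≤ D') : InProgression A l D' a b m := by
  obtain ⟨u, d, h1, h2, h3⟩ := h
  exact ⟨u, d, h1, h2.trans hD, h3⟩

/-- all primes are in `RoughAt r` -/
lemma prime_mem (r : ℕ) (hr : 2 ≤ r) (q : ℕ) (hq : q.Prime) : q ∈ RoughAt r := by
  intro p hp hd
  have h1 : p = q := (Nat.prime_dvd_prime_iff_eq hp hq).1 hd
  have h2 : (1 : ℝ) < q := by exact_mod_cast hq.one_lt
  have hr2 : (2 : ℝ) ≤ r := by exact_mod_cast hr
  rw [h1]
  have h5 : (1 / (r : ℝ)) < 1 := by
    rw [div_lt_one (by linarith)]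
    linarith
  have := Real.rpow_lt_rpow_of_exponent_lt h2 h5
  rwa [Real.rpow_one] at this

open Classical in
/-- the general theorem for the form `m` -/
lemma narrow (θ : ℝ) (hθ : 0 < θ) (r : ℕ) (hr : 2 ≤ r) (l : ℕ) (hl : 2 ≤ l) (ε : ℝ) (hε : 0 < ε) :
    ∃ B : ℕ, ∀ᶠ X : ℕ in atTop, ∀ Y : ℕ, (X : ℝ) ^ θ ≤ Y → Y ≤ X →
      ∀ A : Set ℕ, A ⊆ RoughAt r →
        (((Ioc X (X + Y)).filter (fun m : ℕ =>
          m ∈ A ∧ ¬ InProgression A l (Real.log X ^ B) X (X + Y) m)).card : ℝ) ≤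
        ε * (Y / Real.log X) := by
  obtain ⟨B, hB⟩ := Pool.Agent.R463.NL.narrow_lin one_pos (fun _ : Fin 1 => 1) (fun _ => 0) (fun _ => one_pos)
    (fun _ => by rw [Nat.cast_one]; exact isCoprime_one_left) (fun i j _ _ => Subsingleton.elim i j) (fun p hp => ⟨1, fun _ h => by
      have h1 : (p : ℤ) ∣ ((1 : ℕ) : ℤ) := by simpa using h
      exact hp.one_lt.ne' (Nat.dvd_one.1 (Int.natCast_dvd_natCast.1 h1))⟩) θ hθ r hr l hl ε hε
  refine ⟨B, ?_⟩
  filter_upwards [hB] with X hX Y hXY hYX A hA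
  have h := hX Y hXY hYX A (fun m hm => by
    intro i p hp hd
    refine hA hm p hp ?_
    have h1 : (p : ℤ) ∣ (m : ℤ) := by simpa using hd
    exact_mod_cast h1)
  rw [pow_one] at h
  exact h

open Classical in
/-- **Narrow progressions in the Oppermann intervals.** (1) All primes belong to `RoughAt r`, for `r ≥ 2`.
(2) Let `r, l ≥ 2` and `ε > 0`. There is `B` such that for all large `n`, both for `Z = n ^ 2 - n` and
`Z = n ^ 2`, and for EVERY set `A` of integers `m` without prime factor `≤ m ^ (1 / r)`, for instance every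
set of primes: all but at most `ε n / log n` of the elements of `A` in `(Z, Z + n]` are terms of `l`-term
arithmetic progressions, contained in the part of `A` in `(Z, Z + n]`, with difference at most
`(log n) ^ B`. -/
theorem result : (∀ r : ℕ, 2 ≤ r → ∀ q : ℕ, q.Prime → q ∈ RoughAt r) ∧
    ∀ r : ℕ, 2 ≤ r → ∀ l : ℕ, 2 ≤ l → ∀ ε : ℝ, 0 < ε → ∃ B : ℕ, ∀ᶠ n : ℕ in atTop,
      ∀ A : Set ℕ, A ⊆ RoughAt r → ∀ Z : ℕ, Z = n ^ 2 - n ∨ Z = n ^ 2 →
        (((Ioc Z (Z + n)).filter (fun m : ℕ =>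
          m ∈ A ∧ ¬ InProgression A l (Real.log n ^ B) Z (Z + n) m)).card : ℝ) ≤
        ε * (n / Real.log n) := by
  refine ⟨prime_mem, fun r hr l hl ε hε => ?_⟩
  obtain ⟨B, hB⟩ := narrow (1 / 2) (by norm_num) r hr l hl ε hε
  refine ⟨2 * B, ?_⟩
  rw [eventually_atTop] at hB
  obtain ⟨X₀, hX₀⟩ := hB
  have hlog : ∀ᶠ n : ℕ in atTop, (2 : ℝ) ≤ Real.log n :=
    (Real.tendsto_log_atTop.comp tendsto_natCast_atTop_atTop).eventually_ge_atTop 2
  filter_upwards [hlog, eventually_ge_atTop (max X₀ 2)] with n h1 h2 A hA Z hZ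
  have hn2 : 2 ≤ n := (le_max_right _ _).trans h2
  have hnX : X₀ ≤ n := (le_max_left _ _).trans h2
  have h3 : 2 * n ≤ n ^ 2 := by nlinarith
  have hnZ : n ≤ Z := by
    rcases hZ with rfl | rfl <;> omega
  have hZn : Z ≤ n ^ 2 := by
    rcases hZ with rfl | rfl <;> omega
  have hn0 : (0 : ℝ) < n := by exact_mod_cast (by omega : 0 < n)
  have hZ0 : (0 : ℝ) < Z := by exact_mod_cast (by omega : 0 < Z)
  have hnZ' : (n : ℝ) ≤ Z := by exact_mod_cast hnZ
  have hlogn : Real.log n ≤ Real.log Z := Real.log_le_log hn0 hnZ'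
  have hlogZ : Real.log Z ≤ 2 * Real.log n := by
    have h4 : (Z : ℝ) ≤ (n : ℝ) ^ 2 := by exact_mod_cast hZn
    calc Real.log Z ≤ Real.log ((n : ℝ) ^ 2) := Real.log_le_log hZ0 h4
      _ = 2 * Real.log n := by rw [Real.log_pow]; norm_num
  have h5 := hX₀ Z (hnX.trans hnZ) n (by
    have h4 : (Z : ℝ) ≤ (n : ℝ) ^ (2 : ℝ) := by
      rw [Real.rpow_two]
      exact_mod_cast hZn
    calc (Z : ℝ) ^ ((1 : ℝ) / 2) ≤ ((n : ℝ) ^ (2 : ℝ)) ^ ((1 : ℝ) / 2) :=
          Real.rpow_le_rpow hZ0.le h4 (by norm_num)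
      _ = n := by
          rw [← Real.rpow_mul hn0.le]
          norm_num) hnZ A hA
  have h6 : Real.log Z ^ B ≤ Real.log n ^ (2 * B) := by
    have h7 : Real.log Z ≤ Real.log n ^ 2 := by nlinarith
    calc Real.log Z ^ B ≤ (Real.log n ^ 2) ^ B := pow_le_pow_left₀ (by linarith) h7 B
      _ = Real.log n ^ (2 * B) := by rw [pow_mul]
  have h8 : (((Ioc Z (Z + n)).filter (fun m : ℕ =>
          m ∈ A ∧ ¬ InProgression A l (Real.log n ^ (2 * B)) Z (Z + n) m)).card : ℝ) ≤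
      (((Ioc Z (Z + n)).filter (fun m : ℕ =>
          m ∈ A ∧ ¬ InProgression A l (Real.log Z ^ B) Z (Z + n) m)).card : ℝ) := by
    exact_mod_cast card_le_card (fun m hm => by
      rw [mem_filter] at hm ⊢
      exact ⟨hm.1, hm.2.1, fun h => hm.2.2 (h.mono h6)⟩)
  refine h8.trans (h5.trans ?_)
  apply mul_le_mul_of_nonneg_left _ hε.le
  exact div_le_div_of_nonneg_left hn0.le (by linarith) hlogn

end Pool.Agent.Results.MP_a8fbd7_nt.NarrowProgressions
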